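import Mathlib

set_option autoImplicit false

namespace Pool.Agent.Results.MP_e5975b_an.No

open Set
open scoped InnerProductSpace

/-- Euclidean space -/
abbrev E (n : ℕ) := EuclideanSpace ℝ (Fin n)

variable {n m : ℕ} (F : Fin m → E n → E n) (K : Set (E n))

/-- Pareto solutions -/
def Sol : Set (E n) :=
  {x ∈ K | ∀ y ∈ K, ¬((∀ l, 0 ≤ ⟪F l x, x - y⟫_ℝ) ∧ ∃ l, ⟪F l x, x - y⟫_ℝ ≠ 0)}

/-- weak Pareto solutions -/
def SolW : Set (E n) := {x ∈ K | ∀ y ∈ K, ¬∀ l, 0 < ⟪F l x, x - y⟫_ℝ}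

/-- proper Pareto solutions -/
def SolP : Set (E n) :=
  {x ∈ K | ∃ ξ : Fin m → ℝ, (∀ l, 0 < ξ l) ∧ ∑ l, ξ l = 1 ∧ ∀ y ∈ K, 0 ≤ ⟪∑ l, ξ l • F l x, y - x⟫_ℝ}

/-- monotone problem -/
def Mono : Prop := ∀ l, ∀ x ∈ K, ∀ y ∈ K, 0 ≤ ⟪F l y - F l x, y - x⟫_ℝ

/-- symmetric problem -/
def Symm : Prop := ∀ l, Differentiable ℝ (F l) ∧ ∀ x ∈ K, ∀ i j,
  fderiv ℝ (F l) x (EuclideanSpace.single j 1) i = fderiv ℝ (F l) x (EuclideanSpace.single i 1) j

theorem result : ∃ (n m : ℕ) (F : Fin m → E n → E n) (K : Set (E n)), 1 ≤ n ∧ 1 ≤ m ∧ K.Nonempty ∧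
    IsClosed K ∧ Convex ℝ K ∧ (∀ l, Continuous (F l)) ∧ Mono F K ∧ Symm F K ∧
    ∀ S ∈ ({SolW F K, Sol F K, SolP F K} : Set (Set (E n))), S.Nonempty ∧ ¬IsPreconnected S := by
  let K : Set (E 3) := {x | x 1 ≤ x 2 ∧ -x 1 ≤ x 2 ∧ Real.exp (x 0) ≤ x 2}
  let F : Fin 2 → E 3 → E 3 := fun l _ => ![!₂[0, 2, 1], !₂[0, -2, 1]] l
  have p : ∀ s : ℝ, s = 1 ∨ s = -1 → !₂[0, s, 1] ∈ K := fun s h => by
    rcases h with rfl | rfl <;> simp [K]
  have w : ∀ x ∈ SolW F K, x 1 ≠ 0 := fun x h e => by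
    have := Real.exp_pos (x 0)
    have := Real.exp_lt_exp.2 (show x 0 - 1 < x 0 by linarith)
    refine h.2 !₂[x 0 - 1, 0, Real.exp (x 0 - 1)] (by simp [K, Real.exp_nonneg]) fun l => ?_
    fin_cases l <;> simp [F, EuclideanSpace.inner_eq_star_dotProduct, dotProduct, Fin.sum_univ_three, e] <;>
      linarith [h.1.2.2]
  have q : ∀ s : ℝ, s = 1 ∨ s = -1 → !₂[0, s, 1] ∈ SolP F K := fun s h => by
    refine ⟨p s h, ![1 / 2 - s / 4, 1 / 2 + s / 4], fun l => ?_, by simp; norm_num, fun y hy => ?_⟩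
    · fin_cases l <;> rcases h with rfl | rfl <;> norm_num
    · rcases h with rfl | rfl <;>
        simp [F, EuclideanSpace.inner_eq_star_dotProduct, dotProduct, Fin.sum_univ_three] <;>
        linarith [hy.1, hy.2.1]
  have a : SolP F K ⊆ Sol F K := fun x ⟨h, ξ, b, _, c⟩ => ⟨h, fun y hy ⟨d, l, e⟩ => by
    have := c y hy
    rw [sum_inner, ← neg_sub x] at this
    simp only [inner_smul_left, inner_neg_right, mul_neg, Finset.sum_neg_distrib, conj_trivial] at this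
    linarith [Finset.sum_pos' (s := .univ) (fun i _ => mul_nonneg (b i).le (d i))
      ⟨l, Finset.mem_univ _, mul_pos (b l) ((d l).lt_of_ne' e)⟩]⟩
  have b : Sol F K ⊆ SolW F K := fun x h => ⟨h.1, fun y hy c => h.2 y hy ⟨fun l => (c l).le, 0, (c 0).ne'⟩⟩
  have k : ∀ S, SolP F K ⊆ S → S ⊆ SolW F K → S.Nonempty ∧ ¬IsPreconnected S := fun S a b =>
    ⟨⟨_, a (q 1 (by simp))⟩, fun h => by
      obtain ⟨x, c, d⟩ := h.intermediate_value (a (q (-1) (by simp))) (a (q 1 (by simp)))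
        (f := fun x => x 1) (by fun_prop) (show (0 : ℝ) ∈ _ by simp)
      exact w x (b c) d⟩
  refine ⟨3, 2, F, K, by simp, by simp, ⟨_, p 1 (by simp)⟩, by
    refine IsClosed.and ?_ (IsClosed.and ?_ ?_) <;> exact isClosed_le (by fun_prop) (by fun_prop),
    fun x hx y hy s t s0 t0 st => ?_, fun _ => continuous_const, fun l x _ y _ => by simp [F],
    fun l => ⟨differentiable_const _, by simp [F]⟩, ?_⟩
  · have := convexOn_exp.2 (mem_univ (x 0)) (mem_univ (y 0)) s0 t0 st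
    simp only [K, mem_ofPred_eq, PiLp.add_apply, PiLp.smul_apply, smul_eq_mul] at *
    refine ⟨?_, ?_, this.trans ?_⟩ <;> nlinarith [hx.1, hx.2.1, hx.2.2, hy.1, hy.2.1, hy.2.2]
  rintro S (rfl | rfl | rfl)
  exacts [k _ (a.trans b) le_rfl, k _ a b, k _ le_rfl (a.trans b)]

end Pool.Agent.Results.MP_e5975b_an.No
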